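import Pool.Agent.Helper6.OB.Goals

/-!
# Project OB: `LMO`, monotonicity of the large functions
-/

set_option autoImplicit false

namespace Pool.Agent.Helper45.OB

open Pool.Agent.Helper6.CS Pool.Agent.Helper6.OB
open Pool.Agent.Helper41.CS (get_app_lt len_app)

set_option synthInstance.maxSize 1000000000

variable {M : Type} [World M]

theorem len_le_app (D z : Wd M) : D.len ≤ (D ++ z).len := by
  rw [len_app]
  exact le_add_of_nonneg_right (World.zero_le' _)

theorem lam_level {a b : M} {G : M → Wd M × Wd M → Prop} {Φ : Wd M → Wd M × Wd M → M}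
    (hG : ∀ L L' y, L ≤ L' → G L' y → G L y) {L L' : M} {D : Wd M} (hL : L ≤ L')
    (h : Lam a b G Φ L' D) : Lam a b G Φ L D := by
  intro r
  obtain ⟨B', hB'⟩ := h r
  obtain ⟨k, rfl⟩ := World.exists_add _ _ hL
  refine ⟨k + B', fun χ hχ => ?_⟩
  rw [← add_assoc] at hχ
  obtain ⟨y, h1, h2, h3, h4, h5⟩ := hB' χ hχ
  exact ⟨y, h1, h2.trans (le_add_of_nonneg_left (World.zero_le' _)), dg_mono hL h3,
    hG _ _ _ hL h4, h5⟩

theorem lam_app {a b : M} {G : M → Wd M × Wd M → Prop} {Φ : Wd M → Wd M × Wd M → M}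
    {L : M} {D z : Wd M} (h : Lam a b G Φ L (D ++ z)) : Lam a b G Φ L D := by
  intro r
  obtain ⟨B, hB⟩ := h r
  refine ⟨B, fun χ hχ => ?_⟩
  obtain ⟨y, h1, h2, h3, h4, h5⟩ := hB χ hχ
  refine ⟨y, h1, h2, h3, h4, fun p hp hl => ?_⟩
  rw [h5 p hp (lt_of_lt_of_le hl (len_le_app D z)), get_app_lt hl]

theorem vio_app {a b : M} {H : Wd M → M} [IFn M H] {i : M} {D z : Wd M} (h : Vio a b H i D) :
    Vio a b H i (D ++ z) := by
  obtain ⟨q, m, E, h1, h2, h3, h4⟩ := h
  refine ⟨q, m, E, h1, h2, fun p hp hl => lt_of_lt_of_le (h3 p hp hl) (len_le_app D z), ?_⟩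
  rw [← h4]
  have i1 : IFn M fun p : Wd M => pr ((D ++ z).get (Cod.cd (p ++ q))) (H (p ++ q)) := by
    infer_instance
  have i2 : IFn M fun p : Wd M => pr (D.get (Cod.cd (p ++ q))) (H (p ++ q)) := by
    infer_instance
  refine (rst_eq (F := fun p : Wd M => pr ((D ++ z).get (Cod.cd (p ++ q))) (H (p ++ q)))
    (F' := fun p : Wd M => pr (D.get (Cod.cd (p ++ q))) (H (p ++ q)))).2 fun p hp hl => ?_
  rw [get_app_lt (h3 p hp hl)]

theorem t_LMO : G_LMO := by
  intro M _ a b H G Φ hSt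
  have := hSt.ifn
  exact ⟨fun L L' D hL h => lam_level hSt.mono hL h, fun L D z h => lam_app h,
    fun D z h L => lam_app (h L), fun i D z h => vio_app h⟩

end Pool.Agent.Helper45.OB
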